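import Mathlib
import Pool.Agent.Q273.SPL.Phil

/-!
# Philippon's inequality at the good approximations of almost all targets
-/

set_option autoImplicit false

namespace Pool.Agent.Results.MP_05f553_nt.GoodApproximationsOfAlmostAll

open Q273.SPL.Phil

/-- **Philippon's inequality at the good approximations of almost all targets.** Let `α ≥ 1`, `β ≥ 0`,
`ε < 1 / 2`, `ε B ≥ 2` and `τ > 0`, let `Y` be a metric space and `φ : ℚ → Y` any map, for instance
the inclusion of the rational numbers in the real or the `p`-adic numbers.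
(1) There is a set `E` in `Y` of Hausdorff dimension at most `2 / (α τ)` such that for each `ξ`
outside `E` and each `A`, for all but finitely many rational numbers `y` with
`dist(ξ, φ(y)) ≤ A H(y) ^ (-τ)` the inequality holds for all `x`.
(2) There is a set `E` in `Y` of Hausdorff dimension at most `1 / (α B τ)` such that for each `ξ`
outside `E`, each `x` and each `A` the inequality holds for all but finitely many rational numbers `y`
with `dist(ξ, φ(y)) ≤ A H(y) ^ (-τ)`. -/
theorem result.{u} (B : ℕ) (α β ε τ : ℝ) (hα : 1 ≤ α) (hβ : 0 ≤ β) (hε : ε < 1 / 2)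
    (hB : 2 ≤ ε * B) (hτ : 0 < τ) (Y : Type u) [MetricSpace Y] (φ : ℚ → Y) :
    (∃ E : Set Y, dimH E ≤ ENNReal.ofReal (2 / (α * τ)) ∧ ∀ ξ : Y, ξ ∉ E → ∀ A : ℝ,
      {y : ℚ | (∃ x : ℚ, Violates B α β ε x y) ∧ dist ξ (φ y) ≤ A * (H y) ^ (-τ)}.Finite) ∧
    (∃ E : Set Y, dimH E ≤ ENNReal.ofReal (1 / (α * B * τ)) ∧ ∀ ξ : Y, ξ ∉ E → ∀ (x : ℚ) (A : ℝ),
      {y : ℚ | Violates B α β ε x y ∧ dist ξ (φ y) ≤ A * (H y) ^ (-τ)}.Finite) :=
  metric B α β ε τ hα hβ hε hB hτ Y φ

end Pool.Agent.Results.MP_05f553_nt.GoodApproximationsOfAlmostAll
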