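import Pool.Agent.Q138.PS.YE
import Pool.Agent.Results.MP_05f553_nt.SequenceHeights

/-!
# Philippon's inequality for all the rationals with a coordinate close to a power of a real number

Let `α ≥ 1`, `β ≥ 0`, `ε < 1/2`, `ε B ≥ 2`, `A ≥ 1`, `l < 1`. There is a set `Z` of real numbers of Hausdorff dimension at most
`(2 A / α) / (1 - l)` such that for every real `λ > 1` outside `Z`, all real algebraic numbers `c > 0`, all integers `j`, all real `D`
and all large `N`, for EVERY integer `m ≥ 1` with `|m - c N ^ j λ ^ N| ≤ D (c N ^ j λ ^ N) ^ l`, Philippon's inequality holds for ALL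
`x` and all `y` with numerator `± m` or denominator `m` and of height at most `m ^ A` (for `A = 1`: all `y` of height `m`).
-/

set_option autoImplicit false

namespace Pool.Agent.Results.MP_05f553_nt.InequalityNearPowers

open Filter Pool.Agent.Q138.PS
open Pool.Agent.Results.MP_05f553_nt.SequenceHeights (Good Bad)

/-- **Theorem.** -/
theorem result (B : ℕ) (α β ε A l : ℝ) (hα : 1 ≤ α) (hβ : 0 ≤ β) (hε : ε < 1 / 2) (hB : 2 ≤ ε * B) (hA : 1 ≤ A)
    (hl : l < 1) :
    ∃ Z : Set ℝ, dimH Z ≤ ENNReal.ofReal (2 * A / α / (1 - l)) ∧ ∀ r : ℝ, 1 < r → r ∉ Z → ∀ c : ℝ, 0 < c → IsAlgebraic ℚ c →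
      ∀ (j : ℤ) (D : ℝ), ∀ᶠ N : ℕ in atTop, ∀ m : ℕ, 1 ≤ m → NearPow r c j D l N m → ∀ x : ℚ, x ≠ 0 →
        Good B α β ε A x m := by
  classical
  obtain ⟨Z, hZ, hz⟩ := pow_cn_eps (ι := Unit) (fun _ m => m ∈ Bad B α β ε A) (2 * A / α) l (by positivity) hl (by
    intro _ δ hδ
    obtain ⟨C, hC⟩ := SequenceHeights.count B α β ε A hα hβ hε hB hA δ hδ
    refine ⟨C, fun Y hY => ?_⟩
    have h1 := hC Y hY
    rw [show A * (2 / α) + δ = 2 * A / α + δ by ring] at h1
    refine le_trans (le_of_eq ?_) h1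
    rw [cn_ncard, ← Set.ncard_coe_finset]
    congr 2
    ext m
    simp only [Finset.coe_filter, Finset.mem_Ioc, Set.mem_ofPred_eq]
    constructor
    · rintro ⟨h2, h3, h4⟩
      exact ⟨⟨h2, h3⟩, h4⟩
    · rintro ⟨⟨h2, h3⟩, h4⟩
      exact ⟨h2, h3, h4⟩)
  refine ⟨Z, hZ, fun r hr hrZ c hc hca j D => ?_⟩
  filter_upwards [hz r hr hrZ () c hc hca j D] with N hN m hm hnear x hx
  by_contra hcon
  exact hN m hm hnear ⟨x, hx, hcon⟩

end Pool.Agent.Results.MP_05f553_nt.InequalityNearPowers
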