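import Mathlib
import Pool.Agent.Q273.SPL.Phil

/-!
# Philippon's inequality near every irrational number
-/

set_option autoImplicit false

namespace Pool.Agent.Results.MP_05f553_nt.NearEveryIrrational

open Q273.SPL.Phil

/-- **Philippon's inequality near every irrational number.** Let `α ≥ 1`, `β ≥ 0`, `ε < 1 / 2`,
`ε B ≥ 2` and `τ > 0`.
(1) If `α > 2` and `τ < 2 - 2 / α`, then for every irrational number `ξ` there are infinitely many
rational numbers `y` with `|ξ - y| ≤ H(y) ^ (-τ)` such that the inequality holds for all `x`.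
(2) If `τ < 2 - 1 / (α B)`, then for every irrational number `ξ` and every `x` there are infinitely
many rational numbers `y` with `|ξ - y| ≤ H(y) ^ (-τ)` such that the inequality holds. -/
theorem result (B : ℕ) (α β ε τ : ℝ) (hα : 1 ≤ α) (hβ : 0 ≤ β) (hε : ε < 1 / 2)
    (hB : 2 ≤ ε * B) (hτ : 0 < τ) :
    (2 < α → τ < 2 - 2 / α → ∀ ξ : ℝ, Irrational ξ →
      {y : ℚ | (¬ ∃ x : ℚ, Violates B α β ε x y) ∧ |ξ - y| ≤ (H y) ^ (-τ)}.Infinite) ∧
    (τ < 2 - 1 / (α * B) → ∀ ξ : ℝ, Irrational ξ → ∀ x : ℚ,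
      {y : ℚ | ¬ Violates B α β ε x y ∧ |ξ - y| ≤ (H y) ^ (-τ)}.Infinite) :=
  every B α β ε τ hα hβ hε hB hτ

end Pool.Agent.Results.MP_05f553_nt.NearEveryIrrational
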