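import Pool.Agent.Q84.NX.Fam3
import Pool.Agent.Results.MP_05f553_nt.FewExceptions

/-!
# Philippon's inequality for all pairs related to the primes of a string

Let `α ≥ 1`, `β ≥ 0`, `ε < 1/2`, `ε B ≥ 2`, `0 < A₁ < α / 2`, `0 ≤ ρ`, `0 < A₂ < α B (1 - 2 ρ)`. There is `c > 0`, for all
`κ > 0` and `m` there is `c' > 0` and for every `Z` a number `D` with the following property. For every large `X` there is
a set `S` of at most `(log X) ^ (49 / 50)` primes, all larger than `Z`, such that for EVERY function `f` with values `1`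
and `-1` on the primes at least `X ^ (1 - κ)` integers `n`, `X < n ≤ 3X`, satisfy: the interval `[n, n + D]` contains at
least `m` primes, and for every prime `p` in it

* the Legendre symbol `(p / q)` is `f q` for all odd primes `q ≤ c' log X` outside `S`;
* the inequality of the question holds for ALL nonzero rational numbers `x, y` with `x y ^ B ≠ 1, -1` such that some
  divisor `r` of the product of the numerator and the denominator of `y` is within `p ^ c` of a positive multiple of `p`,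
  and either `H(y) ≤ p ^ A₁` (`x` arbitrary) or `H(x) ≤ p ^ ρ`, `H(y) ≤ p ^ A₂`.

Method: the starting result `FewExceptions` counts the exceptional pairs; the divisor bound; few primes divide a number
near a divisor of an exceptional product (`Q84/NX/Core`, `Q84/NX/TriJ`); the Maynard-Tao theorem relative to a modulus
which is a small power of `X`, in the form that it avoids arbitrary exceptional sets of size `X ^ (1 - η)`
(`Q84/MB/E1-E4`), gives the strings.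
-/

set_option autoImplicit false

open scoped Classical

namespace Pool.Agent.Results.MP_05f553_nt.StringsOfPrimes

open Finset Filter
open Pool.Agent.Results.MP_05f553_nt.FewExceptions (Holds Exceptions)

/-- the height `H(x) = max (|a|, |b|)` of `x = a / b` (lowest terms) -/
noncomputable def hgt (x : ℚ) : ℝ := max |((x.num : ℤ) : ℝ)| ((x.den : ℕ) : ℝ)

/-- the inequality of the question holds for all `x, y` such that the product of the numerator and the denominator of `y`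
has a divisor `r` within `p ^ c` of a positive multiple of `p`, and `H(y) ≤ p ^ A₁` or `H(x) ≤ p ^ ρ`, `H(y) ≤ p ^ A₂` -/
def Fine (B : ℕ) (α β ε ρ A₁ A₂ c : ℝ) (p : ℕ) : Prop :=
  ∀ (x y : ℚ) (k r : ℕ), x ≠ 0 → y ≠ 0 → x * y ^ B ≠ 1 → x * y ^ B ≠ -1 → 1 ≤ k →
    |(r : ℝ) - k * p| ≤ (p : ℝ) ^ c → r ∣ y.num.natAbs * y.den →
    hgt y ≤ (p : ℝ) ^ A₁ ∨ (hgt x ≤ (p : ℝ) ^ ρ ∧ hgt y ≤ (p : ℝ) ^ A₂) → Holds B α β ε x y

/-- the number of rational numbers of bounded height -/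
theorem rats (T : ℝ) (hT : 1 ≤ T) : {x : ℚ | hgt x ≤ T}.Finite ∧ ({x : ℚ | hgt x ≤ T}.ncard : ℝ) ≤ 3 * T ^ 2 := by
  obtain ⟨N, hN⟩ : ∃ N, N = ⌊T⌋₊ := ⟨_, rfl⟩
  have hNT : (N : ℝ) ≤ T := by rw [hN]; exact Nat.floor_le (by linarith)
  have hN1 : 1 ≤ N := by rw [hN]; exact Nat.le_floor (by exact_mod_cast hT)
  obtain ⟨F, hF⟩ : ∃ F : Finset (ℤ × ℕ), F = (Icc (-(N : ℤ)) N) ×ˢ (Icc 1 N) := ⟨_, rfl⟩
  have hmap : Set.MapsTo (fun x : ℚ => (x.num, x.den)) {x : ℚ | hgt x ≤ T} (F : Set (ℤ × ℕ)) := by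
    intro x hx
    have h1 : |((x.num : ℤ) : ℝ)| ≤ T := (le_max_left _ _).trans hx
    have h2 : ((x.den : ℕ) : ℝ) ≤ T := (le_max_right _ _).trans hx
    have h3 : x.num.natAbs ≤ N := by
      rw [hN]
      refine Nat.le_floor ?_
      rw [Nat.cast_natAbs]
      push_cast
      exact h1
    rw [mem_coe, hF, mem_product, mem_Icc, mem_Icc]
    show (-(N : ℤ) ≤ x.num ∧ x.num ≤ N) ∧ (1 ≤ x.den ∧ x.den ≤ N)
    refine ⟨⟨by omega, by omega⟩, x.den_pos, ?_⟩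
    rw [hN]
    exact Nat.le_floor h2
  have hinj : Set.InjOn (fun x : ℚ => (x.num, x.den)) {x : ℚ | hgt x ≤ T} := by
    intro x _ y _ h
    simp only [Prod.mk.injEq] at h
    exact Rat.ext h.1 h.2
  have hfin : {x : ℚ | hgt x ≤ T}.Finite := Set.Finite.of_injOn hmap hinj F.finite_toSet
  refine ⟨hfin, ?_⟩
  have h1 : {x : ℚ | hgt x ≤ T}.ncard ≤ F.card := by
    rw [← Set.ncard_coe_finset]
    exact Set.ncard_le_ncard_of_injOn _ hmap hinj F.finite_toSet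
  have h2 : F.card = (2 * N + 1) * N := by
    rw [hF, card_product, Int.card_Icc, Nat.card_Icc]
    congr 1
    omega
  have h3 : ({x : ℚ | hgt x ≤ T}.ncard : ℝ) ≤ (2 * N + 1) * N := by
    rw [h2] at h1
    exact_mod_cast h1
  have hN1' : (1 : ℝ) ≤ N := by exact_mod_cast hN1
  have hN0 : (0 : ℝ) ≤ N := by linarith
  calc ({x : ℚ | hgt x ≤ T}.ncard : ℝ) ≤ (2 * N + 1) * N := h3
    _ ≤ (3 * T) * T := mul_le_mul (by linarith) hNT hN0 (by linarith)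
    _ = 3 * T ^ 2 := by ring

/-- the number of the exceptional pairs with `x` of bounded height -/
theorem pairs (B : ℕ) (α β ε T Y M : ℝ) (hT : 1 ≤ T) (hM : 0 ≤ M) (hfin : (Exceptions B α β ε Y).Finite)
    (hx : ∀ x : ℚ, (({y : ℚ | (x, y) ∈ Exceptions B α β ε Y}.ncard : ℕ) : ℝ) ≤ M) :
    ({t : ℚ × ℚ | hgt t.1 ≤ T ∧ t ∈ Exceptions B α β ε Y}.ncard : ℝ) ≤ 3 * T ^ 2 * M := by
  obtain ⟨h1, h2⟩ := rats T hT
  have hW : {t : ℚ × ℚ | hgt t.1 ≤ T ∧ t ∈ Exceptions B α β ε Y}.Finite := hfin.subset fun t ht => ht.2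
  obtain ⟨W, hWd⟩ : ∃ W, W = hW.toFinset := ⟨_, rfl⟩
  rw [Set.ncard_eq_toFinset_card _ hW, ← hWd]
  have hmaps : ∀ t ∈ W, t.1 ∈ h1.toFinset := by
    intro t ht
    rw [hWd, Set.Finite.mem_toFinset] at ht
    rw [Set.Finite.mem_toFinset]
    exact ht.1
  rw [card_eq_sum_card_fiberwise hmaps]
  push_cast
  have hfib : ∀ x ∈ h1.toFinset, ((W.filter fun t => t.1 = x).card : ℝ) ≤ M := by
    intro x _
    refine le_trans ?_ (hx x)
    rw [Nat.cast_le, ← Set.ncard_coe_finset]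
    have hf : {y : ℚ | (x, y) ∈ Exceptions B α β ε Y}.Finite := by
      refine (hfin.image Prod.snd).subset ?_
      intro y hy
      exact ⟨(x, y), hy, rfl⟩
    refine Set.ncard_le_ncard_of_injOn Prod.snd ?_ ?_ hf
    · intro t ht
      rw [mem_coe, mem_filter, hWd, Set.Finite.mem_toFinset] at ht
      obtain ⟨⟨-, h3⟩, h4⟩ := ht
      rw [← h4]
      exact h3
    · intro t ht t' ht' h
      rw [mem_coe, mem_filter] at ht ht'
      exact Prod.ext (ht.2.trans ht'.2.symm) h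
  calc ∑ x ∈ h1.toFinset, ((W.filter fun t => t.1 = x).card : ℝ) ≤ ∑ _x ∈ h1.toFinset, M := sum_le_sum hfib
    _ = h1.toFinset.card * M := by rw [sum_const, nsmul_eq_mul]
    _ = ({x : ℚ | hgt x ≤ T}.ncard : ℝ) * M := by rw [Set.ncard_eq_toFinset_card _ h1]
    _ ≤ 3 * T ^ 2 * M := mul_le_mul_of_nonneg_right h2 hM

/-- **Theorem.** -/
theorem result (B : ℕ) (α β ε ρ A₁ A₂ : ℝ) (hα : 1 ≤ α) (hβ : 0 ≤ β) (hε : ε < 1 / 2) (hB : 2 ≤ ε * B)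
    (hA₁ : 0 < A₁) (hA₁' : A₁ < α / 2) (hρ : 0 ≤ ρ) (hA₂ : 0 < A₂) (hA₂' : A₂ < α * B * (1 - 2 * ρ)) :
    ∃ c : ℝ, 0 < c ∧
    ∀ κ : ℝ, 0 < κ → ∀ m : ℕ, ∃ c' : ℝ, 0 < c' ∧
    ∀ Z : ℕ, ∃ D : ℕ, ∃ X₀ : ℝ, ∀ X : ℝ, X₀ ≤ X →
    ∃ S : Finset ℕ, (∀ q ∈ S, q.Prime ∧ Z < q) ∧ (S.card : ℝ) ≤ (Real.log X) ^ (49 / 50 : ℝ) ∧
    ∀ f : ℕ → ℤ, (∀ q, f q = 1 ∨ f q = -1) →
      X ^ (1 - κ) ≤ (((Icc 1 ⌊3 * X⌋₊).filter fun n : ℕ => X < n ∧
        m ≤ ((Icc n (n + D)).filter Nat.Prime).card ∧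
        ∀ p ∈ Icc n (n + D), p.Prime → Fine B α β ε ρ A₁ A₂ c p ∧
          ∀ q : ℕ, q.Prime → q ≠ 2 → (q : ℝ) ≤ c' * Real.log X → q ∉ S → jacobiSym p q = f q).card : ℝ) := by
  have hα0 : 0 < α := by linarith
  have hB0 : (0 : ℝ) < B := by
    rcases Nat.eq_zero_or_pos B with h | h
    · rw [h, Nat.cast_zero, mul_zero] at hB
      linarith
    · exact_mod_cast h
  have hαB : 0 < α * B := by positivity
  -- parameters
  have hx1 : A₁ * (2 / α) < 1 := by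
    rw [mul_div_assoc', div_lt_one hα0]
    linarith
  have hx2 : 2 * ρ + A₂ * (1 / (α * B)) < 1 := by
    have h1 : A₂ * (1 / (α * B)) < 1 - 2 * ρ := by
      rw [mul_one_div, div_lt_iff₀ hαB]
      linarith
    linarith
  obtain ⟨δ, hδ⟩ : ∃ δ, δ = min ((1 - A₁ * (2 / α)) / (2 * A₁)) ((1 - (2 * ρ + A₂ * (1 / (α * B)))) / (2 * A₂)) := ⟨_, rfl⟩
  have hδ0 : 0 < δ := by
    rw [hδ]
    exact lt_min (div_pos (by linarith) (by linarith)) (div_pos (by linarith) (by linarith))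
  have hδ1 : A₁ * δ ≤ (1 - A₁ * (2 / α)) / 2 := by
    have h1 : δ ≤ (1 - A₁ * (2 / α)) / (2 * A₁) := by rw [hδ]; exact min_le_left _ _
    calc A₁ * δ ≤ A₁ * ((1 - A₁ * (2 / α)) / (2 * A₁)) := mul_le_mul_of_nonneg_left h1 hA₁.le
      _ = (1 - A₁ * (2 / α)) / 2 := by field_simp
  have hδ2 : A₂ * δ ≤ (1 - (2 * ρ + A₂ * (1 / (α * B)))) / 2 := by
    have h1 : δ ≤ (1 - (2 * ρ + A₂ * (1 / (α * B)))) / (2 * A₂) := by rw [hδ]; exact min_le_right _ _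
    calc A₂ * δ ≤ A₂ * ((1 - (2 * ρ + A₂ * (1 / (α * B)))) / (2 * A₂)) := mul_le_mul_of_nonneg_left h1 hA₂.le
      _ = (1 - (2 * ρ + A₂ * (1 / (α * B)))) / 2 := by field_simp
  obtain ⟨γ, hγ⟩ : ∃ γ, γ = max (A₁ * (2 / α + δ)) (2 * ρ + A₂ * (1 / (α * B) + δ)) := ⟨_, rfl⟩
  have hγ1 : A₁ * (2 / α + δ) ≤ γ := by rw [hγ]; exact le_max_left _ _
  have hγ2 : 2 * ρ + A₂ * (1 / (α * B) + δ) ≤ γ := by rw [hγ]; exact le_max_right _ _
  have hγ0 : 0 ≤ γ := le_trans (by positivity) hγ1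
  have hγlt : 1 * γ < 1 := by
    rw [one_mul, hγ]
    apply max_lt
    · rw [mul_add]
      linarith
    · rw [mul_add]
      linarith
  obtain ⟨C, hC⟩ := FewExceptions.result B α β ε δ hα hβ hε hB hδ0
  obtain ⟨J, hJ⟩ := exists_nat_ge (2 * max 1 (max A₁ A₂))
  have hJ1 : (2 : ℝ) ≤ J := by
    have := le_max_left 1 (max A₁ A₂)
    linarith
  have hJA₁ : 2 * A₁ ≤ J := by
    have := (le_max_left A₁ A₂).trans (le_max_right 1 (max A₁ A₂))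
    linarith
  have hJA₂ : 2 * A₂ ≤ J := by
    have := (le_max_right A₁ A₂).trans (le_max_right 1 (max A₁ A₂))
    linarith
  obtain ⟨E, hE⟩ : ∃ E : ℝ → Set (ℚ × ℚ), E = fun P : ℝ =>
    {t | 1 ≤ P ∧ (t ∈ Exceptions B α β ε (P ^ A₁) ∨ (hgt t.1 ≤ P ^ ρ ∧ t ∈ Exceptions B α β ε (P ^ A₂)))} := ⟨_, rfl⟩
  have hexc : ∀ (t : ℚ × ℚ) (Y Y' : ℝ), Y ≤ Y' → t ∈ Exceptions B α β ε Y → t ∈ Exceptions B α β ε Y' := by
    intro t Y Y' hYY ht
    obtain ⟨h1, h2, h3, h4, h5, h6⟩ := ht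
    exact ⟨h1, h2, h3, h4, h5.trans hYY, h6⟩
  have hmono : ∀ P P' : ℝ, P ≤ P' → E P ⊆ E P' := by
    intro P P' hPP t ht
    rw [hE] at ht ⊢
    obtain ⟨h1, h2⟩ := ht
    refine ⟨h1.trans hPP, ?_⟩
    rcases h2 with h2 | ⟨h2, h3⟩
    · exact Or.inl (hexc t _ _ (Real.rpow_le_rpow (by linarith) hPP hA₁.le) h2)
    · exact Or.inr ⟨h2.trans (Real.rpow_le_rpow (by linarith) hPP hρ),
        hexc t _ _ (Real.rpow_le_rpow (by linarith) hPP hA₂.le) h3⟩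
  have hsize : ∀ P : ℝ, 1 ≤ P → ∀ t ∈ E P, 1 ≤ t.2.num.natAbs * t.2.den ∧
      ((t.2.num.natAbs * t.2.den : ℕ) : ℝ) ≤ P ^ J := by
    intro P hP t ht
    rw [hE] at ht
    obtain ⟨h1, h2⟩ := ht
    have h3 : ∃ A : ℝ, 0 < A ∧ 2 * A ≤ J ∧ t ∈ Exceptions B α β ε (P ^ A) := by
      rcases h2 with h2 | ⟨-, h3⟩
      · exact ⟨A₁, hA₁, hJA₁, h2⟩
      · exact ⟨A₂, hA₂, hJA₂, h3⟩
    obtain ⟨A, hA, hAJ, -, hy0, -, -, hy, -⟩ := h3
    have h4 : (t.2.num.natAbs : ℝ) ≤ P ^ A := by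
      rw [Nat.cast_natAbs]
      push_cast
      exact (le_max_left _ _).trans hy
    have h5 : ((t.2.den : ℕ) : ℝ) ≤ P ^ A := (le_max_right _ _).trans hy
    refine ⟨Nat.mul_pos (Int.natAbs_pos.2 (Rat.num_ne_zero.2 hy0)) t.2.den_pos, ?_⟩
    push_cast
    have hPA : 0 ≤ P ^ A := by positivity
    calc (t.2.num.natAbs : ℝ) * t.2.den ≤ P ^ A * P ^ A := mul_le_mul h4 h5 (by positivity) hPA
      _ = P ^ (2 * A) := by rw [← Real.rpow_add (by linarith)]; congr 1; ring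
      _ ≤ P ^ (J : ℝ) := Real.rpow_le_rpow_of_exponent_le hP hAJ
      _ = P ^ J := Real.rpow_natCast P J
  have hC0 : 0 ≤ |C| := abs_nonneg C
  have hcount : ∀ P : ℝ, 1 ≤ P → (E P).Finite ∧ ((E P).ncard : ℝ) ≤ (4 * |C|) * P ^ γ := by
    intro P hP
    have hP0 : 0 < P := by linarith
    have hP1 : 1 ≤ P ^ A₁ := Real.one_le_rpow hP hA₁.le
    have hP2 : 1 ≤ P ^ A₂ := Real.one_le_rpow hP hA₂.le
    have hPρ : 1 ≤ P ^ ρ := Real.one_le_rpow hP hρ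
    obtain ⟨h1, h2, -⟩ := hC (P ^ A₁) hP1
    obtain ⟨h3, -, h4⟩ := hC (P ^ A₂) hP2
    have h5 := pairs B α β ε (P ^ ρ) (P ^ A₂) (|C| * (P ^ A₂) ^ (1 / (α * B) + δ)) hPρ (by positivity) h3
      (fun x => (h4 x).trans (mul_le_mul_of_nonneg_right (le_abs_self C) (by positivity)))
    have hEq : E P = Exceptions B α β ε (P ^ A₁) ∪ {t : ℚ × ℚ | hgt t.1 ≤ P ^ ρ ∧ t ∈ Exceptions B α β ε (P ^ A₂)} := by
      rw [hE]
      ext t
      simp only [hP, true_and]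
      rfl
    have hf2 : {t : ℚ × ℚ | hgt t.1 ≤ P ^ ρ ∧ t ∈ Exceptions B α β ε (P ^ A₂)}.Finite := h3.subset fun t ht => ht.2
    rw [hEq]
    refine ⟨h1.union hf2, ?_⟩
    have h6 : ((Exceptions B α β ε (P ^ A₁) ∪
        {t : ℚ × ℚ | hgt t.1 ≤ P ^ ρ ∧ t ∈ Exceptions B α β ε (P ^ A₂)}).ncard : ℝ) ≤
        ((Exceptions B α β ε (P ^ A₁)).ncard : ℝ) +
        ({t : ℚ × ℚ | hgt t.1 ≤ P ^ ρ ∧ t ∈ Exceptions B α β ε (P ^ A₂)}.ncard : ℝ) := by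
      exact_mod_cast Set.ncard_union_le _ _
    have h7 : C * (P ^ A₁) ^ (2 / α + δ) ≤ |C| * P ^ γ := by
      apply mul_le_mul (le_abs_self C) _ (by positivity) hC0
      rw [← Real.rpow_mul hP0.le]
      exact Real.rpow_le_rpow_of_exponent_le hP hγ1
    have h8 : 3 * (P ^ ρ) ^ 2 * (|C| * (P ^ A₂) ^ (1 / (α * B) + δ)) ≤ 3 * |C| * P ^ γ := by
      have h9 : (P ^ ρ) ^ 2 * (P ^ A₂) ^ (1 / (α * B) + δ) ≤ P ^ γ := by
        rw [← Real.rpow_natCast (P ^ ρ) 2, ← Real.rpow_mul hP0.le, ← Real.rpow_mul hP0.le, ← Real.rpow_add hP0]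
        apply Real.rpow_le_rpow_of_exponent_le hP
        refine le_trans (le_of_eq ?_) hγ2
        push_cast
        ring
      calc 3 * (P ^ ρ) ^ 2 * (|C| * (P ^ A₂) ^ (1 / (α * B) + δ))
          = 3 * |C| * ((P ^ ρ) ^ 2 * (P ^ A₂) ^ (1 / (α * B) + δ)) := by ring
        _ ≤ 3 * |C| * P ^ γ := mul_le_mul_of_nonneg_left h9 (by positivity)
    calc ((Exceptions B α β ε (P ^ A₁) ∪
        {t : ℚ × ℚ | hgt t.1 ≤ P ^ ρ ∧ t ∈ Exceptions B α β ε (P ^ A₂)}).ncard : ℝ)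
        ≤ |C| * P ^ γ + 3 * |C| * P ^ γ := h6.trans (add_le_add (h2.trans h7) (h5.trans h8))
      _ = (4 * |C|) * P ^ γ := by ring
  obtain ⟨c, hc, hc4, hmain⟩ := Pool.Agent.Q84.NX.obj_strings E hmono
    (fun t : ℚ × ℚ => t.2.num.natAbs * t.2.den) J (by
      have : (1 : ℝ) ≤ J := by linarith
      exact_mod_cast this) 1 hsize 1 γ (4 * |C|) one_pos hγ0 hγlt hcount
  refine ⟨c, hc, fun κ hκ m => ?_⟩
  obtain ⟨c', hc', h⟩ := hmain κ hκ m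
  refine ⟨c', hc', fun Z => ?_⟩
  obtain ⟨D, X₀, hX₀⟩ := h Z
  refine ⟨D, X₀, fun X hX => ?_⟩
  obtain ⟨S, hS1, hS2, hS3⟩ := hX₀ X hX
  refine ⟨S, hS1, hS2, fun f hf => (hS3 f hf).trans ?_⟩
  rw [Nat.cast_le]
  apply card_le_card
  intro n hn
  rw [mem_filter] at hn ⊢
  obtain ⟨hn1, hn2, hn3, hn4⟩ := hn
  refine ⟨hn1, hn2, hn3, fun p hp hpp => ⟨?_, (hn4 p hp hpp).2⟩⟩
  have hgood := (hn4 p hp hpp).1
  have hp1 : (1 : ℝ) ≤ p := by exact_mod_cast hpp.one_lt.le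
  intro x y k r hx hy h1 h2 hk hkr hr hH
  by_contra hcon
  refine hgood (x, y) ?_ k r hk hkr hr
  rw [hE, Real.rpow_one]
  refine ⟨hp1, ?_⟩
  rcases hH with hH | ⟨hH1, hH2⟩
  · exact Or.inl ⟨hx, hy, h1, h2, hH, hcon⟩
  · exact Or.inr ⟨hH1, hx, hy, h1, h2, hH2, hcon⟩

end Pool.Agent.Results.MP_05f553_nt.StringsOfPrimes
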